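import Mathlib
import Pool.Agent.H491.Cor2

set_option autoImplicit false

/-!
# At least `1 / D` of the multiple zeta values of depth `D` with an even argument are transcendental

Injectivity of `φ_KZ` implies that the value of a nonconstant element, for example a multiple zeta value, is transcendental,
and that multiple zeta values have no relations (between different weights) but the motivic ones. Let `L` be a subfield of
`ℝ` over which `π` is transcendental, for example the field of the real algebraic numbers, and let `E` be a subspace of `ℝ`
of dimension at most `r` over `L` (for example `E = L`, or the space spanned over `L` by `r` given multiple zeta values).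

Theorem. Let `0 ≤ q < D`. Of the indices `(k_1, …, k_D)` with `2 ≤ k_i ≤ 2 n + 1` and exactly `q` odd entries at least the
proportion `(1 - C ((r + 1) / n) ^ η) / D` has a value `ζ(k_1, …, k_D)` outside of `E`. The constants `C` and `η > 0` depend
only on `D` and `q`.

Proof. The stuffle product of `ζ(2 a)` and `ζ(k')`, `k' = (k_1, …, k_(D-1))`, is the sum of the `D` values which arise by
inserting `2 a` into `k'` and of `D - 1` merged terms, in which `2 a` is added to one entry. Write `z` for the weight. The
merged term with the entry `k_j + 2 a = z - ∑_{i ≠ j} k_i` does not depend on `k_j` if `z` is fixed. So an alternating sum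
over the `2 ^ (D - 1)` corners `k'` of a box (of indices of the same parity, with `z` fixed) kills all merged terms at once.
If all insertions have values in `E` for all corners and all `z` in a set `B`, then
`∑_ε ± ζ(z - s_ε) ζ(k^ε) ∈ E` for `z ∈ B`, where `s_ε` is the weight of `k^ε`. Here `ζ(z - s_ε)` is a rational multiple of
`π ^ (z - s_ε)`, and if the `s_ε` are distinct there are at most `r + 2 ^ (D - 1) - 1` such `z`, because all minors of
the matrix `ζ(2 (i + j)) / π ^ (2 (i + j))` are nonzero. So the set of the pairs `(k', z)` all of whose insertions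
have values in `E` contains no complete `D`-partite pattern with parts of sizes `w, …, w, r + 2 ^ (D - 1)`, where
`w = 4 ^ (D - 1) + 1`, and is of size `O(n ^ D ((r + 1) / n) ^ η)`. Every index with `q` odd entries arises by `D - q`
insertions.
-/

namespace Pool.Agent.Results.MP_807c24_nt.OneOverDepth

/-- the multiple zeta value `ζ(k_1, …, k_D) = ∑_{n_1 > ⋯ > n_D ≥ 1} n_1 ^ (-k_1) ⋯ n_D ^ (-k_D)` -/
noncomputable def zeta {D : ℕ} (k : Fin D → ℕ) : ℝ :=
  ∑' n : {n : Fin D → ℕ // StrictAnti n ∧ ∀ i, 1 ≤ n i}, ∏ i, (((n.1 i : ℕ) : ℝ) ^ k i)⁻¹

/-- the indices of depth `D` with entries between `2` and `2 n + 1`, exactly `q` of them odd -/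
def indices (D q n : ℕ) : Finset (Fin D → ℕ) :=
  (Fintype.piFinset fun _ => Finset.Icc 2 (2 * n + 1)).filter fun k => (Finset.univ.filter fun i => Odd (k i)).card = q

open Classical in
theorem result (D q : ℕ) (hq : q < D) :
    ∃ C η : ℝ, 0 < η ∧ ∀ (L : Subfield ℝ), Transcendental L Real.pi → ∀ (E : Submodule L ℝ) (r : ℕ),
      Module.rank L E ≤ (r : Cardinal) → ∀ n : ℕ,
      ((indices D q n).card : ℝ) / D * (1 - C * (((r : ℝ) + 1) / n) ^ η) ≤
        (((indices D q n).filter fun k => zeta k ∉ E).card : ℝ) :=
  Pool.Agent.H491.Cor.main D q hq

end Pool.Agent.Results.MP_807c24_nt.OneOverDepth
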