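import Pool.Agent.H512.DRB.Assoc
import Pool.Agent.H512.DRB.Basic

/-!
# The smallest torsor over a number field which contains the KZ associator, and unconditional cases

Let `d ≥ 1` and let `S` be the torsor of associators modulo terms of degree `> d`, in a faithful representation as a
set of matrices, and let `c` be the point `(2πi, Φ_KZ)`. See the file
`Pool/Graph/R_pool_sql_team_seeded_b0a926ef/Results/MP_807c24_nt/AssociatorTorsors.lean` of the library for the
setting, which is used here over an arbitrary field `K` of algebraic numbers: the Lie algebra of the torsor is spanned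
by the matrix `W` of the degree and by the truncated Lie algebra `L = grt_1`, which is generated by homogeneous
elements `σ_j` of degrees `n_j` (representatives of a basis of `L / [L, L]`), and for each `j` there is a quotient of
rank two with the periods `1`, `t_j + s_j (2πi) ^ n_j + r_j ζ(n_j)`, `(2πi) ^ n_j`, with rational `r_j`, `s_j`, `t_j`,
where `r_j = 0` unless `n_j ≥ 3` is odd.

Call `m` good over `K` if `m ≥ 3` is odd and `ζ(m)` is not in `K + K (2πi) ^ m`. The library treats `K = ℚ`, in terms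
of the irrationality of `ζ(m)`. Here arbitrary fields `K` of algebraic numbers are considered, and the irrationality
theorems of the library (`ζ(5)`, all windows, many values outside a number field) are used to obtain unconditional
statements on the KZ associator. For a number field `K` which contains no nonzero purely imaginary number (for example
a real field, or any field of odd degree) `m` is good over `K` if and only if `ζ(m)` is not in `K`, by the
transcendence of `π`.
-/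

set_option autoImplicit false

namespace Pool.Agent.Results.MP_807c24_nt.TorsorsOverNumberFields

open Matrix Pool.Agent.R913.Mix Pool.Agent.R913.Tor Pool.Agent.TH127.PT

/-- The zeta value `ζ(n) = ∑ 1 / k ^ n`, sum over the positive integers `k`. -/
noncomputable def zet (n : ℕ) : ℝ := ∑' k : ℕ, 1 / ((k : ℝ) + 1) ^ n

/-- The degree `m` is odd, at least `3`, and `ζ(m)` is not of the form `α + γ (2πi) ^ m` with `α`, `γ` in `K`. -/
def Good (K : Subfield ℂ) (m : ℕ) : Prop :=
  Odd m ∧ 3 ≤ m ∧ ∀ α ∈ K, ∀ γ ∈ K, (zet m : ℂ) ≠ α + γ * (2 * Real.pi * Complex.I) ^ m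

section

variable {N : Type} [Fintype N] [DecidableEq N] {J : Type} [Fintype J] [DecidableEq J]

/-- The period `t j + s j (2πi) ^ n j + r j ζ(n j)`. -/
noncomputable def period (n : J → ℕ) (r s t : J → ℚ) (j : J) : ℂ :=
  (t j : ℂ) + (s j : ℂ) * (2 * Real.pi * Complex.I) ^ n j + (r j : ℂ) * (zet (n j) : ℂ)

/-- The combination `∑ r j σ j` of the generators of degree `m`. -/
noncomputable def zetaPart (σ : J → Matrix N N ℂ) (n : J → ℕ) (r : J → ℚ) (m : ℕ) : Matrix N N ℂ :=
  ∑ j, if n j = m then (r j : ℂ) • σ j else 0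

/-- `S` is an irreducible torsor of matrices over `K` containing `c`, its Lie algebra is spanned by `W` and by the Lie
algebra generated by matrices `σ j` over `K` of positive degree `n j`, for every `j` the rows `a j`, `b j` form a
subobject of rank two with the periods `1, 0` and `period j, (2πi) ^ n j`, on which only `W` and `σ j` are not zero,
and only generators of odd degree `≥ 3` may have a period which involves a zeta value. -/
structure AssociatorTorsor (K : Subfield ℂ) (S : Set (Matrix N N ℂ)) (c W : Matrix N N ℂ) (σ : J → Matrix N N ℂ)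
    (n : J → ℕ) (a b : J → N) (r s t : J → ℚ) : Prop where
  sub : IsSubtorsor K S
  irr : Irred S
  mem : c ∈ S
  pos : ∀ j, 0 < n j
  gen : Blk K W σ n a b
  row : Pt c a b n (period n r s t) (2 * Real.pi * Complex.I)
  lie : LM S = Submodule.span ℂ {W} ⊔ Lg σ
  ext : ∀ j, r j ≠ 0 → Odd (n j) ∧ 3 ≤ n j

end

theorem good_bot_iff (m : ℕ) : Good ⊥ m ↔ Odd m ∧ 3 ≤ m ∧ Irrational (zet m) := by
  constructor
  · rintro ⟨h1, h2, h3⟩
    refine ⟨h1, h2, ?_⟩
    rintro ⟨q, hq⟩
    apply h3 (q : ℂ) (mem_bot.2 ⟨q, rfl⟩) 0 (Subfield.zero_mem _)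
    rw [← hq]
    push_cast
    ring
  · rintro ⟨h1, h2, h3⟩
    refine ⟨h1, h2, fun α hα γ hγ h => ?_⟩
    have h4 := real_zero (ζ := zet) h1 h3 (A := α) (B := γ) (R := -1) hα hγ
      (mem_bot.2 ⟨-1, by push_cast; rfl⟩) (by rw [h]; ring)
    norm_num at h4

theorem good_field_iff (k : IntermediateField ℚ ℂ) [FiniteDimensional ℚ k] (hk : ∀ z ∈ k, z.re = 0 → z = 0)
    (m : ℕ) : Good k.toSubfield m ↔ Odd m ∧ 3 ≤ m ∧ (zet m : ℂ) ∉ k := by
  constructor
  · rintro ⟨h1, h2, h3⟩
    refine ⟨h1, h2, fun h => ?_⟩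
    apply h3 _ h 0 (Subfield.zero_mem _)
    ring
  · rintro ⟨h1, h2, h3⟩
    refine ⟨h1, h2, fun α hα γ hγ h => ?_⟩
    obtain ⟨l, hl⟩ := h1
    obtain ⟨n, rfl⟩ : ∃ n, l = n + 1 := ⟨l - 1, by omega⟩
    have e : m = 2 * n + 3 := by omega
    subst e
    exact Pool.Agent.H512.DRB.cond_of_not_mem (k := k) hk (n := n) h3 ⟨α, hα⟩ ⟨γ, hγ⟩ h

theorem ncard_transfer {P : ℕ → Prop} {Q : ℕ → Prop} (h : ∀ n, P n → Q (2 * n + 3)) (b s : ℕ) :
    Set.ncard {n : ℕ | b < 2 * n + 3 ∧ 2 * n + 3 ≤ s ∧ P n} ≤ Set.ncard {m : ℕ | b < m ∧ m ≤ s ∧ Q m} := by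
  have hfin : {m : ℕ | b < m ∧ m ≤ s ∧ Q m}.Finite := (Set.finite_Iic s).subset fun m hm => hm.2.1
  have hinj : Function.Injective fun n : ℕ => 2 * n + 3 := fun n n' h => by
    simp only at h
    omega
  rw [← Set.ncard_image_of_injective _ hinj]
  apply Set.ncard_le_ncard _ hfin
  rintro _ ⟨n, ⟨h1, h2, h3⟩, rfl⟩
  exact ⟨h1, h2, h n h3⟩

/-- **The smallest torsor over a number field which contains the KZ associator.** Let `hull K c` be the smallest
subtorsor over `K` which contains `c`.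

(1) For every field `K` of algebraic numbers: the image of `Lie(hull K c) ∩ L` in `L / [L, L]` is spanned by the
elements `ρ_m = ∑_{n_j = m} r_j σ_j` with `m` good over `K`; the hull is the whole torsor if and only if the degrees
`n_j` are distinct and good over `K` and all `r_j ≠ 0`; `c` is generic over `K` if and only if this is the case and
the Zariski closure of `c` over `K` is a torsor.

(2) `m` is good over `ℚ` if and only if `m ≥ 3` is odd and `ζ(m)` is irrational. The degrees `3`, `5` and one of `7`,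
`9`, `11`, `13` are good over `ℚ`, for every odd `s ≥ 3` there is a good `m` with `s < m < 3.6 s`, and there are at
least `K` good `m` in `(b, s]` if `2^66 (b+1) K log (K+1) ≤ s` and `2^132 (b+1) K³ log (K+1) ≤ s²`.

(3) In degrees at most six (all `n_j ≤ 6`, distinct, with `r_j ≠ 0`) no proper subtorsor over `ℚ` contains `c`.

(4) If `k` is a number field of odd degree, or without nonzero purely imaginary elements, then `m` is good over `k` if
and only if `m ≥ 3` is odd and `ζ(m)` is not in `k`, and there are at least `K` good `m` in `(b, s]` if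
`2^(264 [k:ℚ]) (b+1)² K³ log (K+1) ≤ s²`. -/
theorem result :
    (∀ (N J : Type) [Fintype N] [DecidableEq N] [Fintype J] [DecidableEq J] [Nonempty J] (K : Subfield ℂ),
      (∀ x ∈ K, IsAlgebraic ℚ x) → ∀ (S : Set (Matrix N N ℂ)) (c W : Matrix N N ℂ) (σ : J → Matrix N N ℂ)
      (n : J → ℕ) (a b : J → N) (r s t : J → ℚ), AssociatorTorsor K S c W σ n a b r s t →
      (LM (hull K c) ⊓ Lg σ) ⊔ der (Lg σ) =
        Submodule.span ℂ {y | ∃ m, Good K m ∧ y = zetaPart σ n r m} ⊔ der (Lg σ) ∧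
      (hull K c = S ↔ Function.Injective n ∧ ∀ j, r j ≠ 0 ∧ Good K (n j)) ∧
      (Generic K S c ↔ IsTorsor (Zar K c) ∧ Function.Injective n ∧ ∀ j, r j ≠ 0 ∧ Good K (n j))) ∧
    ((∀ m, Good ⊥ m ↔ Odd m ∧ 3 ≤ m ∧ Irrational (zet m)) ∧ Good ⊥ 3 ∧ Good ⊥ 5 ∧
      (Good ⊥ 7 ∨ Good ⊥ 9 ∨ Good ⊥ 11 ∨ Good ⊥ 13) ∧
      (∀ s, Odd s → 3 ≤ s → ∃ m, Good ⊥ m ∧ s < m ∧ 5 * m < 18 * s) ∧
      (∀ b K s : ℕ, 1 ≤ K → (2 : ℝ) ^ 66 * ((b : ℝ) + 1) * K * Real.log (K + 1) ≤ s →
        (2 : ℝ) ^ 132 * ((b : ℝ) + 1) * (K : ℝ) ^ 3 * Real.log (K + 1) ≤ (s : ℝ) ^ 2 →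
        K ≤ Set.ncard {m : ℕ | b < m ∧ m ≤ s ∧ Good ⊥ m})) ∧
    (∀ (N J : Type) [Fintype N] [DecidableEq N] [Fintype J] [DecidableEq J] [Nonempty J]
      (S : Set (Matrix N N ℂ)) (c W : Matrix N N ℂ) (σ : J → Matrix N N ℂ)
      (n : J → ℕ) (a b : J → N) (r s t : J → ℚ), AssociatorTorsor ⊥ S c W σ n a b r s t →
      Function.Injective n → (∀ j, r j ≠ 0 ∧ n j ≤ 6) →
      hull ⊥ c = S ∧ (Generic ⊥ S c ↔ IsTorsor (Zar ⊥ c))) ∧
    (∀ (k : IntermediateField ℚ ℂ) [FiniteDimensional ℚ k],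
      (Odd (Module.finrank ℚ k) ∨ ∀ z ∈ k, z.re = 0 → z = 0) →
      (∀ m, Good k.toSubfield m ↔ Odd m ∧ 3 ≤ m ∧ (zet m : ℂ) ∉ k) ∧
      (∀ b K s : ℕ, 1 ≤ K →
        (2 : ℝ) ^ (264 * Module.finrank ℚ k) * ((b : ℝ) + 1) ^ 2 * (K : ℝ) ^ 3 * Real.log (K + 1) ≤ (s : ℝ) ^ 2 →
        K ≤ Set.ncard {m : ℕ | b < m ∧ m ≤ s ∧ Good k.toSubfield m})) := by
  have main : ∀ (N J : Type) [Fintype N] [DecidableEq N] [Fintype J] [DecidableEq J] [Nonempty J] (K : Subfield ℂ),
      (∀ x ∈ K, IsAlgebraic ℚ x) → ∀ (S : Set (Matrix N N ℂ)) (c W : Matrix N N ℂ) (σ : J → Matrix N N ℂ)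
      (n : J → ℕ) (a b : J → N) (r s t : J → ℚ), AssociatorTorsor K S c W σ n a b r s t →
      (LM (hull K c) ⊓ Lg σ) ⊔ der (Lg σ) =
        Submodule.span ℂ {y | ∃ m, Good K m ∧ y = zetaPart σ n r m} ⊔ der (Lg σ) ∧
      (hull K c = S ↔ Function.Injective n ∧ ∀ j, r j ≠ 0 ∧ Good K (n j)) ∧
      (Generic K S c ↔ IsTorsor (Zar K c) ∧ Function.Injective n ∧ ∀ j, r j ≠ 0 ∧ Good K (n j)) := by
    intro N J _ _ _ _ _ K hK S c W σ n a b r s t h
    have hτ := transc_K hK
    have h1 := fun y => hull_image (y := y) h.gen h.pos h.row hτ h.sub h.irr h.mem h.lie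
    have h2 := hull_eq_iff h.gen h.pos h.row hτ h.sub h.irr h.mem h.lie
    have h3 := generic_iff h.gen h.pos h.row hτ h.sub h.irr h.mem h.lie
    have h4 : Indep K n (period n r s t) (2 * Real.pi * Complex.I) ↔
        Function.Injective n ∧ ∀ j, r j ≠ 0 ∧ Good K (n j) :=
      Pool.Agent.H512.DRB.AssK.indep_zper (ζ := zet) (s := s) (t := t) h.ext
    refine ⟨?_, h2.trans h4, h3.trans (and_congr_right fun _ => h4)⟩
    ext y
    rw [h1 y]
    exact Pool.Agent.H512.DRB.AssK.zper_span (ζ := zet) (s := s) (t := t) h.gen h.ext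
  have halg : ∀ x ∈ (⊥ : Subfield ℂ), IsAlgebraic ℚ x := by
    intro x hx
    obtain ⟨q, rfl⟩ := mem_bot.1 hx
    exact isAlgebraic_algebraMap (R := ℚ) (A := ℂ) q
  have g3 : Good ⊥ 3 := (good_bot_iff 3).2 ⟨by decide, le_rfl, Pool.Agent.H512.DRB.irr_three'⟩
  have g5 : Good ⊥ 5 := (good_bot_iff 5).2 ⟨by decide, by norm_num, Pool.Agent.H512.DRB.irr_five⟩
  refine ⟨main, ⟨good_bot_iff, g3, g5, ?_, ?_, ?_⟩, ?_, ?_⟩
  · rcases Pool.Agent.Results.MP_c2395a_nt.OddZeta7To13.result with h | h | h | h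
    · exact Or.inl ((good_bot_iff _).2 ⟨by decide, by norm_num, h⟩)
    · exact Or.inr (Or.inl ((good_bot_iff _).2 ⟨by decide, by norm_num, h⟩))
    · exact Or.inr (Or.inr (Or.inl ((good_bot_iff _).2 ⟨by decide, by norm_num, h⟩)))
    · exact Or.inr (Or.inr (Or.inr ((good_bot_iff _).2 ⟨by decide, by norm_num, h⟩)))
  · rintro s ⟨l, hl⟩ hs
    obtain ⟨n, rfl⟩ : ∃ n, l = n + 1 := ⟨l - 1, by omega⟩
    obtain ⟨m, hm, h1, h2⟩ := Pool.Agent.H512.DRB.windows n
    exact ⟨2 * m + 3, (good_bot_iff _).2 ⟨⟨m + 1, by ring⟩, by omega, hm⟩, by omega, by omega⟩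
  · intro b K s hK h2 h3
    exact (Pool.Agent.H512.DRB.many_irr b K s hK h2 h3).trans (ncard_transfer (fun n hn =>
      (good_bot_iff _).2 ⟨⟨n + 1, by ring⟩, by omega, hn⟩) b s)
  · intro N J _ _ _ _ _ S c W σ n a b r s t h hinj hn
    obtain ⟨-, h2, h3⟩ := main N J ⊥ halg S c W σ n a b r s t h
    have h4 : Function.Injective n ∧ ∀ j, r j ≠ 0 ∧ Good ⊥ (n j) := by
      refine ⟨hinj, fun j => ⟨(hn j).1, ?_⟩⟩
      obtain ⟨h5, h6⟩ := h.ext j (hn j).1
      have h7 := (hn j).2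
      obtain ⟨l, hl⟩ := h5
      have h8 : n j = 3 ∨ n j = 5 := by omega
      rcases h8 with h8 | h8
      · rw [h8]
        exact g3
      · rw [h8]
        exact g5
    exact ⟨h2.2 h4, h3.trans ⟨fun h => h.1, fun h => ⟨h, h4⟩⟩⟩
  · intro k _ hk
    have hk' : ∀ z ∈ k, z.re = 0 → z = 0 := by
      rcases hk with hk | hk
      · exact Pool.Agent.H512.DRB.no_imag_of_odd hk
      · exact hk
    refine ⟨good_field_iff k hk', fun b K s hK hs => ?_⟩
    exact (Pool.Agent.H512.DRB.many_outside b K s _ hK hs k le_rfl).trans (ncard_transfer (fun n hn =>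
      (good_field_iff k hk' _).2 ⟨⟨n + 1, by ring⟩, by omega, hn⟩) b s)

end Pool.Agent.Results.MP_807c24_nt.TorsorsOverNumberFields
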